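import Pool.Agent.helper54.TS.Spec

set_option autoImplicit false

open Polynomial Finset

noncomputable section

namespace Pool.Agent.TS

open Pool.Agent.PSA (IsSalem Indep Fac)

lemma TLR_lim (z C : ℝ) (d : ℕ → ℝ) (hz : 0 < z) (hz1 : z < 1) (hC : ∀ n, d n ≤ C)
    (h : ∀ n, d n ≤ z * d (n + 1)) (n : ℕ) : d n ≤ 0 := by
  have h1 : ∀ m n : ℕ, d n ≤ z ^ m * C := by
    intro m
    induction m with
    | zero => intro n; simpa using hC n
    | succ m ih =>
      intro n
      calc d n ≤ z * d (n + 1) := h n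
        _ ≤ z * (z ^ m * C) := mul_le_mul_of_nonneg_left (ih (n + 1)) hz.le
        _ = z ^ (m + 1) * C := by ring
  have h2 : Filter.Tendsto (fun m : ℕ => z ^ m * C) Filter.atTop (nhds (0 * C)) :=
    (tendsto_pow_atTop_nhds_zero_of_lt_one hz.le hz1).mul_const C
  rw [zero_mul] at h2
  exact ge_of_tendsto' h2 (fun m => h1 m n)

lemma TLR_sum (z A : ℝ) (a : ℕ → ℝ) (hz : 0 < z) (hz1 : z < 1) (hA : ∀ n, |a n| ≤ A) (n : ℕ) :
    Summable (fun l : ℕ => z ^ (l + 1) * a (n + l)) ∧ |tl z a n| ≤ z * A / (1 - z) := by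
  have hg : HasSum (fun l : ℕ => z ^ (l + 1) * A) (z * A / (1 - z)) := by
    have h := (hasSum_geometric_of_lt_one hz.le hz1).mul_left (z * A)
    rw [← div_eq_mul_inv] at h
    have e : (fun l : ℕ => z ^ (l + 1) * A) = fun l : ℕ => z * A * z ^ l := by
      funext l
      ring
    rw [e]
    exact h
  have hb : ∀ l : ℕ, ‖z ^ (l + 1) * a (n + l)‖ ≤ z ^ (l + 1) * A := by
    intro l
    rw [norm_mul, Real.norm_eq_abs, Real.norm_eq_abs, abs_of_pos (pow_pos hz _)]
    exact mul_le_mul_of_nonneg_left (hA _) (pow_pos hz _).le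
  refine ⟨Summable.of_norm_bounded hg.summable hb, ?_⟩
  have := tsum_of_norm_bounded hg hb
  rwa [Real.norm_eq_abs] at this

theorem TLR : TLR_stmt := by
  intro z A a hz hz1 hA
  have hrec : ∀ n, tl z a n = z * (a n + tl z a (n + 1)) := by
    intro n
    unfold tl
    rw [(TLR_sum z A a hz hz1 hA n).1.tsum_eq_zero_add, mul_add, ← tsum_mul_left]
    simp only [zero_add, pow_one, add_zero]
    refine congrArg (z * a n + ·) (tsum_congr fun l => ?_)
    rw [show n + (l + 1) = n + 1 + l by ring]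
    ring
  have hbd := fun n => (TLR_sum z A a hz hz1 hA n).2
  have hcmp : ∀ (g : ℕ → ℝ) (B : ℝ), (∀ n, |g n| ≤ B) → (∀ n, z * (a n + g (n + 1)) ≤ g n) →
      ∀ n, tl z a n ≤ g n := by
    intro g B hB hg n
    have := TLR_lim z (z * A / (1 - z) + B) (fun n => tl z a n - g n) hz hz1 (fun n => by
      have h1 := (abs_le.1 (hbd n)).2
      have h2 := (abs_le.1 (hB n)).1
      show tl z a n - g n ≤ _
      linarith) (fun n => by
      have h1 := hrec n
      have h2 := hg n
      show tl z a n - g n ≤ z * (tl z a (n + 1) - g (n + 1))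
      rw [h1]
      linarith) n
    have h3 : tl z a n - g n ≤ 0 := this
    linarith
  refine ⟨hrec, hbd, ?_, ?_, hcmp, ?_⟩
  · intro h n
    exact tsum_nonneg fun l => mul_nonneg (pow_pos hz _).le (h _)
  · intro h h0 n
    have h1 : z ^ (n + 1) * a (0 + n) ≤ tl z a 0 :=
      (TLR_sum z A a hz hz1 hA 0).1.le_tsum n (fun j _ => mul_nonneg (pow_pos hz _).le (h _))
    rw [h0, zero_add] at h1
    have h2 : 0 < z ^ (n + 1) := pow_pos hz _
    have h3 := h n
    nlinarith
  · intro g B hB hg n
    apply le_antisymm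
    · have := TLR_lim z (B + z * A / (1 - z)) (fun n => g n - tl z a n) hz hz1 (fun n => by
        have h1 := (abs_le.1 (hbd n)).1
        have h2 := (abs_le.1 (hB n)).2
        show g n - tl z a n ≤ _
        linarith) (fun n => by
        have h1 := hrec n
        have h2 := hg n
        show g n - tl z a n ≤ z * (g (n + 1) - tl z a (n + 1))
        rw [h1]
        linarith) n
      have h3 : g n - tl z a n ≤ 0 := this
      linarith
    · exact hcmp g B hB (fun n => (hg n).ge) n

end Pool.Agent.TS
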